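import Pool.Agent.Helper97_WHC.Stmt

/-!
# Squad WHC, row SPE (helper13): Satake parameters
-/

set_option autoImplicit false

open scoped BigOperators

namespace Pool.Agent.WHC.H13

open Pool.Agent.DEN Pool.Agent.TMP Pool.Agent.TMP.H27 Pool.Agent.WHT

theorem spe : SpeStmt := by
  classical
  intro r C hC K _ _ N hN f hcu hp he
  have hK := hKer r C hC K
  have hH := hKhk r C hC K
  obtain ⟨lam, hl1, hl2, -, hl4, -⟩ := DEN.TMP.hChi r C hC K N hN f hcu hp he
  obtain ⟨χ, hχ⟩ := exists_chi hKhk hKer hSmu hPln hSur hC lam hl1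
  obtain ⟨ψ, hψ⟩ := H29.exists_ext hC χ
  refine ⟨ψ, ?_, ?_⟩
  · intro k hk x
    have hfin := (hSmu r C hC K).1 _ hk
    have h0 : sA hC k =
      AddMonoidAlgebra.ofCoeff (Finsupp.ofSupportFinite (sat hC k) hfin) := dif_pos hfin
    have hcoe : ∀ l, sat hC k l = (sA hC k).coeff l := by
      intro l
      rw [h0]
      rfl
    have ha : sA hC k ∈ invAlg C := by
      rw [mem_invAlg hC]
      intro i μ
      have := hWin r C hC K k hk i μ
      unfold sf at this
      rw [hC.ip_comm (al i) μ] at this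
      rw [← hcoe, ← hcoe]
      exact this
    have h1 : χ ⟨sA hC k, ha⟩ = lam (fn k) := hχ ⟨sA hC k, ha⟩ k hk hcoe
    have h2 : ψ (sA hC k) = lam (fn k) := (hψ ⟨sA hC k, ha⟩).trans h1
    have h3 := hl4 (fn k) (hH.1 k hk).1 x
    rw [h2, ← h3]
    refine finsum_congr fun y => ?_
    rw [(hH.1 k hk).2.1 x y]
    rfl
  · intro T hT T' hT'
    obtain ⟨k, hk1, hk2⟩ := exists_ker (K := K) hSur hC ⟨T, hT⟩
    have hk3 := hK.2.2.1 _ hk1
    have hcoe : ∀ l, sat hC (kst k) l = T'.coeff l := by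
      intro l
      rw [(hFla r C hC K _ hk1).1 l, hk2, hT']
    have ha : T' ∈ invAlg C := by
      rw [mem_invAlg hC]
      intro i μ
      have := hWin r C hC K (kst k) hk3 i μ
      unfold sf at this
      rw [hC.ip_comm (al i) μ] at this
      rw [← hcoe, ← hcoe]
      exact this
    have h1 : ψ T' = lam (fn (kst k)) := (hψ ⟨T', ha⟩).trans (hχ ⟨T', ha⟩ (kst k) hk3 hcoe)
    have h2 : ψ T = lam (fn k) := (hψ ⟨T, hT⟩).trans (hχ ⟨T, hT⟩ k hk1 hk2)
    rw [h1, h2, ← hl2 (fn k) (hH.1 _ hk1).1]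
    exact congrArg lam (hH.1 _ hk1).2.2.2.symm

end Pool.Agent.WHC.H13
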