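import Pool.Agent.Helper97_WHC.Stmt

/-!
# Squad WHC, row TRI (helper13): triangularity at the top
-/

set_option autoImplicit false

open scoped BigOperators

namespace Pool.Agent.WHC.H13

open Pool.Agent.DEN Pool.Agent.TMP Pool.Agent.WHT Pool.Agent.TMP.H43.Cat Pool.Agent.TMP.H10

/-! ## Two dominant vectors in the same orbit are equal -/

section words
variable {r : ℕ} {C : Matrix (Fin r) (Fin r) ℤ}

variable (C) in
/-- The action of a word. -/
def act (s : List (Fin r)) (x : Fin r → ℤ) : Fin r → ℤ := s.foldr (fun i y => sf C i y) x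

theorem act_cons (i : Fin r) (s : List (Fin r)) (x : Fin r → ℤ) :
    act C (i :: s) x = sf C i (act C s x) := rfl

theorem act_snoc (s : List (Fin r)) (j : Fin r) (x : Fin r → ℤ) :
    act C (s ++ [j]) x = act C s (sf C j x) := by
  unfold act
  rw [List.foldr_append]
  rfl

theorem ip_act (hC : SimplyLaced C) (s : List (Fin r)) (x y : Fin r → ℤ) :
    ip C (act C s x) (act C s y) = ip C x y := by
  induction s with
  | nil => rfl
  | cons i s ih => rw [act_cons, act_cons, ip_sf_sf hC, ih]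

theorem act_sub_smul (s : List (Fin r)) (x y : Fin r → ℤ) (n : ℤ) :
    act C s (x - n • y) = act C s x - n • act C s y := by
  induction s with
  | nil => rfl
  | cons i s ih =>
    rw [act_cons, act_cons, act_cons, ih]
    unfold sf
    rw [ip_sub_right, ip_smul_right]
    funext t
    simp only [Pi.sub_apply, Pi.smul_apply, smul_eq_mul]
    ring

theorem wr_act {l m : Fin r → ℤ} (h : WR C l m) : ∃ s, m = act C s l := by
  induction h with
  | refl => exact ⟨[], rfl⟩
  | tail _ h ih =>
    obtain ⟨s, hs⟩ := ih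
    obtain ⟨i, rfl⟩ := h
    exact ⟨i :: s, by rw [act_cons, ← hs]⟩

/-- Deletion. -/
theorem del (hC : SimplyLaced C) (s : List (Fin r)) (j : Fin r) :
    ∀ γ : Rt C, γ.1 = act C s (al j) → ¬ γ.Pos →
      ∃ t : List (Fin r), t.length + 1 = s.length ∧ ∀ x, act C s (sf C j x) = act C t x := by
  induction s with
  | nil =>
    intro γ hγ hn
    exfalso
    apply hn
    intro i
    rw [hγ]
    show 0 ≤ (Pi.single j 1 : Fin r → ℤ) i
    rw [Pi.single_apply]
    split_ifs <;> norm_num
  | cons i s ih =>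
    intro γ hγ hn
    have hδ2 : ip C (act C s (al j)) (act C s (al j)) = 2 := by
      rw [ip_act hC, ip_al_al]
      exact hC.diag j
    let δ : Rt C := ⟨act C s (al j), hδ2⟩
    by_cases hδ : δ.Pos
    · by_cases hδi : δ = hC.sr i
      · refine ⟨s, rfl, fun x => ?_⟩
        have e : act C s (al j) = al i := congrArg Subtype.val hδi
        have e2 : act C s (sf C j x) = sf C i (act C s x) := by
          unfold sf
          rw [act_sub_smul, e, ← ip_act hC s (al j) x, e]
        rw [act_cons, e2, H81.sf_sf hC]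
      · exfalso
        apply hn
        refine ((H22.hRD r C hC).2.1 i δ γ hδ hδi ?_).1
        rw [hγ, act_cons]
        unfold sf
        rw [hC.ip_comm (al i)]
    · obtain ⟨t, ht, hx⟩ := ih δ rfl hδ
      refine ⟨i :: t, by rw [List.length_cons, List.length_cons, ht], fun x => ?_⟩
      rw [act_cons, act_cons, hx]

theorem dom_unique_aux (hC : SimplyLaced C) (n : ℕ) : ∀ s : List (Fin r), s.length = n →
    ∀ ν : Fin r → ℤ, IsDom C ν → IsDom C (act C s ν) → act C s ν = ν := by
  induction n using Nat.strong_induction_on with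
  | _ n ih =>
    intro s hs ν h1 h2
    rcases List.eq_nil_or_concat s with rfl | ⟨s', j, rfl⟩
    · rfl
    · rw [List.concat_eq_append] at hs h2 ⊢
      rw [act_snoc] at h2 ⊢
      rw [List.length_append, List.length_singleton] at hs
      rcases (h1 j).eq_or_lt with h | h
      · have e : sf C j ν = ν := by
          unfold sf
          rw [← h, zero_smul, sub_zero]
        rw [e] at h2 ⊢
        exact ih s'.length (by omega) s' rfl ν h1 h2
      · have hγ2 : ip C (act C s' (al j)) (act C s' (al j)) = 2 := by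
          rw [ip_act hC, ip_al_al]
          exact hC.diag j
        have hn : ¬ Rt.Pos (C := C) ⟨act C s' (al j), hγ2⟩ := by
          intro hpos
          have h3 : 0 ≤ ip C (act C s' (al j)) (act C s' (sf C j ν)) := by
            have e := H63.ip_exp (C := C) (act C s' (al j)) (act C s' (sf C j ν))
            rw [e]
            exact Finset.sum_nonneg fun i _ => mul_nonneg (hpos i) (h2 i)
          rw [ip_act hC] at h3
          unfold sf at h3
          rw [ip_sub_right, ip_smul_right, ip_al_al, hC.diag] at h3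
          omega
        obtain ⟨t, ht, hx⟩ := del hC s' j ⟨act C s' (al j), hγ2⟩ rfl hn
        rw [hx] at h2 ⊢
        exact ih t.length (by omega) t rfl ν h1 h2

/-- Two dominant vectors in the same orbit are equal. -/
theorem dom_unique (hC : SimplyLaced C) {ν ν' : Fin r → ℤ} (h1 : IsDom C ν) (h2 : IsDom C ν')
    (h : WR C ν ν') : ν' = ν := by
  obtain ⟨s, rfl⟩ := wr_act h
  exact dom_unique_aux hC _ s rfl ν h1 h2

theorem sf_neg (i : Fin r) (x : Fin r → ℤ) : sf C i (-x) = -sf C i x := by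
  unfold sf
  rw [ip_neg_right]
  funext t
  simp only [Pi.sub_apply, Pi.smul_apply, Pi.neg_apply, smul_eq_mul]
  ring

theorem wr_neg {l m : Fin r → ℤ} (h : WR C l m) : WR C (-l) (-m) := by
  induction h with
  | refl => exact Relation.ReflTransGen.refl
  | tail _ h ih =>
    obtain ⟨i, rfl⟩ := h
    exact ih.tail ⟨i, (sf_neg i _).symm⟩

end words

/-! ## The horocycles -/

section
variable {r : ℕ} {C : Matrix (Fin r) (Fin r) ℤ} {K : Type} [Field K]

theorem wf_of (hC : SimplyLaced C) {N : Polynomial K} {χ : grp C K → ℂ} (hχ : IsChi N χ)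
    {M : Fin r → ℤ} (hG : GoodU hC χ M) {u : grp C K} (hu : u ∈ Ug C K) :
    wf hC χ M (u • tp hC K M) = χ u := by
  classical
  unfold wf
  have hex : ∃ v ∈ Ug C K, u • tp hC K M = v • tp hC K M := ⟨u, hu, rfl⟩
  rw [dif_pos hex]
  obtain ⟨hv, he⟩ := hex.choose_spec
  set v := hex.choose with hvd
  have h1 : χ (v⁻¹ * u) = 1 := by
    refine hG _ (mul_mem (inv_mem hv) hu) ?_
    rw [mul_smul, he, inv_smul_smul]
  have h2 : χ u = χ v * χ (v⁻¹ * u) := by
    rw [← hχ.mul v hv _ (mul_mem (inv_mem hv) hu), mul_inv_cancel_left]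
  rw [h2, h1, mul_one]

theorem wf_ne (hC : SimplyLaced C) {χ : grp C K → ℂ} {M : Fin r → ℤ} {y : XX C K}
    (h : wf hC χ M y ≠ 0) : ∃ u ∈ Ug C K, y = u • tp hC K M := by
  by_contra hc
  apply h
  unfold wf
  rw [dif_neg hc]

theorem row (hC : SimplyLaced C) {χ : grp C K → ℂ} {M ν : Fin r → ℤ}
    {k : XX C K → XX C K → ℂ} (hk : IsKer k) {y : XX C K} (h1 : k (tp hC K (M - ν)) y ≠ 0)
    (h2 : wf hC χ M y ≠ 0) : ∃ u ∈ Ug C K, k (oo C K) (u • tp hC K ν) ≠ 0 ∧
      y = tg hC K (M - ν) • u • tp hC K ν := by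
  obtain ⟨u, hu, rfl⟩ := wf_ne hC h2
  have h3 := TMP.H58.tg_Ug hC (-(M - ν)) hu
  rw [tg_neg, inv_inv] at h3
  have e : u • tp hC K M =
      tg hC K (M - ν) • ((tg hC K (M - ν))⁻¹ * u * tg hC K (M - ν)) • tp hC K ν := by
    rw [← mul_smul, ← mul_assoc, ← mul_assoc, mul_inv_cancel, one_mul, mul_smul, tg_tp,
      sub_add_cancel]
  refine ⟨_, h3, ?_, e⟩
  rw [e] at h1
  rw [← hk.inv (tg hC K (M - ν)), tp_smul]
  exact h1

theorem wa_top (hC : SimplyLaced C) {N : Polynomial K} {χ : grp C K → ℂ} (hχ : IsChi N χ)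
    {M ν : Fin r → ℤ} (hG : GoodU hC χ M) {k : XX C K → XX C K → ℂ} (hk : IsKer k)
    (h : ∀ u ∈ Ug C K, k (oo C K) (u • tp hC K ν) ≠ 0 → u • tp hC K ν = tp hC K ν) :
    wa hC χ k (M - ν) M = k (oo C K) (tp hC K ν) := by
  unfold wa
  rw [finsum_eq_single _ (tp hC K M)]
  · have h1 : wf hC χ M (tp hC K M) = 1 := by
      have := wf_of hC hχ hG (one_mem (Ug C K))
      rw [one_smul] at this
      rw [this]
      exact hG 1 (one_mem _) (one_smul _ _)
    have h2 : k (tp hC K (M - ν)) (tp hC K M) = k (oo C K) (tp hC K ν) := by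
      rw [← hk.inv (tg hC K (M - ν)) (oo C K), tp_smul, tg_tp, sub_add_cancel]
    rw [h1, h2, mul_one]
  · intro y hy
    by_contra hc
    obtain ⟨a1, a2⟩ := mul_ne_zero_iff.mp hc
    obtain ⟨u, hu, h3, h4⟩ := row hC hk a1 a2
    apply hy
    rw [h4, h u hu h3, tg_tp, sub_add_cancel]

theorem kst_kst (k : XX C K → XX C K → ℂ) : kst (kst k) = k := by
  funext x y
  unfold kst
  exact Complex.conj_conj _

end

/-- **TRI** -/
theorem tri (nrm : NrmStmt) (gdc : GdcStmt) : TriStmt := by
  classical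
  intro r C hC K _ _ N χ hχ c hc M hM
  obtain ⟨hgood, -⟩ := gdc r C hC K N χ hχ c hc
  have hK := hKer r C hC K
  have hG : GoodU hC χ M := (hgood M).2 fun i => (hM i).le
  have hdom : ∀ ν : Fin r → ℤ, GoodU hC χ (M - ν) ↔ IsDom C ν := by
    intro ν
    rw [hgood]
    refine forall_congr' fun i => ?_
    rw [ip_sub_right, hM i]
    constructor <;> intro h <;> omega
  have hbt : ∀ (k : XX C K → XX C K → ℂ) (ν : Fin r → ℤ), IsDom C ν →
      (bt hC χ k M (M - ν) ≠ 0 ↔ wa hC χ (kst k) (M - ν) M ≠ 0) := by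
    intro k ν hν
    unfold bt
    rw [if_pos ((hdom ν).2 hν)]
    rw [mul_ne_zero_iff, map_ne_zero]
    constructor
    · exact fun h => h.2
    · exact fun h => ⟨zpow_ne_zero _ card_ne, h⟩
  have hbt0 : ∀ (k : XX C K → XX C K → ℂ) (ν : Fin r → ℤ), bt hC χ k M (M - ν) ≠ 0 →
      IsDom C ν := by
    intro k ν h
    by_contra hn
    apply h
    unfold bt
    rw [if_neg (fun h' => hn ((hdom ν).1 h'))]
  refine ⟨?_, ?_⟩
  · intro ν hν
    have hkl := kl_isKer hC (K := K) hKfin ν
    have hk := hK.2.2.1 _ hkl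
    refine ⟨kst (kl hC ν), hk, ?_, ?_⟩
    · rw [hbt _ ν hν, kst_kst, wa_top hC hχ hG hkl, kl_oo_ne]
      · exact self_orb hC ν
      · intro u hu h
        rw [kl_oo_ne] at h
        obtain ⟨g, hg, e⟩ := h
        exact nrm r C hC K ν ν rfl hν g hg u hu e.symm
    · intro ν' h hne
      have hν' := hbt0 _ _ h
      rw [hbt _ ν' hν', kst_kst] at h
      unfold wa at h
      obtain ⟨y, hy⟩ : ∃ y, kl hC ν (tp hC K (M - ν')) y * wf hC χ M y ≠ 0 := by
        by_contra hcon
        push Not at hcon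
        exact h (finsum_eq_zero_of_forall_eq_zero hcon)
      obtain ⟨a1, a2⟩ := mul_ne_zero_iff.mp hy
      obtain ⟨u, hu, h3, -⟩ := row hC hkl a1 a2
      rw [kl_oo_ne] at h3
      obtain ⟨g, hg, e⟩ := h3
      have h4 := (hCat r C hC K).2.1 ν ν' g hg u hu e.symm
      rcases h4.1.lt_or_eq with h5 | h5
      · exact h5
      · exact absurd (dom_unique hC hν hν' (h4.2 h5)) hne
  · intro k hk h0
    by_contra hne
    have hk' := hK.2.2.1 _ hk
    -- a point where the kernel is not zero
    have h1 : ∃ y, kst k (oo C K) y ≠ 0 := by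
      by_contra hall
      push Not at hall
      apply hne
      funext x y
      obtain ⟨g, rfl⟩ := exists_smul y
      have h2 : kst k (g • oo C K) x = 0 := by
        rw [← hk'.inv g⁻¹, inv_smul_smul]
        exact hall _
      have h3 : (starRingEnd ℂ) (k x (g • oo C K)) = 0 := h2
      exact (map_eq_zero _).1 h3
    -- reduction to dominant vectors
    have h2 : ∀ y, kst k (oo C K) y ≠ 0 → ∃ g ∈ maxK C K, ∃ l : Fin r → ℤ, IsDom C l ∧
        kst k (oo C K) (tp hC K l) ≠ 0 ∧ y = g • tp hC K l := by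
      intro y hy
      obtain ⟨g, hg, l, -, rfl⟩ := (hCat r C hC K).1 y
      rw [hK.2.2.2.2.2.2.2 _ hk' g hg] at hy
      obtain ⟨m, hm1, hm2⟩ := (hCat r C hC K).2.2.2 (-l)
      have hm3 : WR C l (-m) := by
        have := wr_neg hm1
        rwa [neg_neg] at this
      have hm4 : IsDom C (-m) := fun i => by
        rw [ip_neg_right]
        have := hm2 i
        omega
      obtain ⟨g', hg', e⟩ := (hKor r C hC K l).2 (-m) hm3
      refine ⟨g * g'⁻¹, mul_mem hg (inv_mem hg'), -m, hm4, ?_, ?_⟩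
      · rw [e, hK.2.2.2.2.2.2.2 _ hk' g' hg']
        exact hy
      · rw [e, mul_smul, inv_smul_smul]
    have hinj : Function.Injective (fun l : Fin r → ℤ => tp hC K l) := by
      intro l m h
      have h3 : tp hC K l = tp hC K m := h
      exact (hHor r C hC K).1 1 (one_mem _) l m (by rw [one_smul, h3])
    have hfin : {ν : Fin r → ℤ | IsDom C ν ∧ kst k (oo C K) (tp hC K ν) ≠ 0}.Finite := by
      refine ((hk'.fin (oo C K)).preimage (hinj.injOn)).subset ?_
      intro ν hν
      exact hν.2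
    obtain ⟨y, hy⟩ := h1
    obtain ⟨-, -, l, hl1, hl2, -⟩ := h2 y hy
    obtain ⟨ν, hν, hmax⟩ := Set.exists_max_image _ (fun ν => ip C ν ν) hfin ⟨l, hl1, hl2⟩
    have h3 := h0 ν
    by_contra
    refine (hbt k ν hν.1).2 ?_ h3
    rw [wa_top hC hχ hG hk']
    · exact hν.2
    · intro u hu hu2
      obtain ⟨g, hg, m, hm1, hm2, e⟩ := h2 _ hu2
      have h4 := ((hCat r C hC K).2.1 m ν g hg u hu e.symm).1
      have h5 := hmax m ⟨hm1, hm2⟩
      exact nrm r C hC K m ν (le_antisymm h4 h5) hν.1 g hg u hu e.symm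

end Pool.Agent.WHC.H13
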